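import Pool.Agent.Helper97.Fuchs.Base2

/-!
# FU-M1: uniform discreteness along Chabauty convergent sequences
-/

namespace Pool.Agent.Helper97.Fuchs

open MeasureTheory Matrix UpperHalfPlane Filter Topology
open scoped MatrixGroups ENNReal BigOperators

noncomputable section

/-- sup norm of `g - 1` -/
def m1_s (g : SL(2, ℝ)) : ℝ := ‖(fun i j => g i j - (1 : SL(2, ℝ)) i j : Fin 2 → Fin 2 → ℝ)‖

lemma m1_s_nonneg (g : SL(2, ℝ)) : 0 ≤ m1_s g := norm_nonneg _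

lemma m1_entry_le (g : SL(2, ℝ)) (i j : Fin 2) : |g i j - (1 : SL(2, ℝ)) i j| ≤ m1_s g := by
  have h1 := norm_le_pi_norm (fun i j => g i j - (1 : SL(2, ℝ)) i j : Fin 2 → Fin 2 → ℝ) i
  have h2 := norm_le_pi_norm (fun j => g i j - (1 : SL(2, ℝ)) i j : Fin 2 → ℝ) j
  rw [← Real.norm_eq_abs]
  exact h2.trans h1

lemma m1_lt_iff (g : SL(2, ℝ)) {ε : ℝ} (hε : 0 < ε) :
    m1_s g < ε ↔ ∀ i j, |g i j - (1 : SL(2, ℝ)) i j| < ε := by
  unfold m1_s
  rw [pi_norm_lt_iff hε]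
  refine forall_congr' fun i => ?_
  rw [pi_norm_lt_iff hε]
  rfl

lemma m1_s_eq_zero {g : SL(2, ℝ)} (h : m1_s g = 0) : g = 1 := by
  ext i j
  have := m1_entry_le g i j
  rw [h] at this
  have h2 := abs_nonpos_iff.1 this
  linarith

lemma m1_continuous : Continuous m1_s := by
  unfold m1_s
  refine Continuous.norm (continuous_pi fun i => continuous_pi fun j => ?_)
  exact (continuous_entry i j).sub continuous_const

lemma m1_sq (g : SL(2, ℝ)) :
    |m1_s (g * g) - 2 * m1_s g| ≤ 2 * m1_s g ^ 2 := by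
  set X : Fin 2 → Fin 2 → ℝ := fun i j => g i j - (1 : SL(2, ℝ)) i j with hX
  set Y : Fin 2 → Fin 2 → ℝ := fun i j => X i 0 * X 0 j + X i 1 * X 1 j with hY
  have h1 : (fun i j => (g * g) i j - (1 : SL(2, ℝ)) i j : Fin 2 → Fin 2 → ℝ) =
      (2 : ℝ) • X + Y := by
    funext i j
    simp only [mul_apply', Pi.add_apply, Pi.smul_apply, smul_eq_mul, hX, hY]
    fin_cases i <;> fin_cases j <;> simp <;> ring
  have h2 : m1_s (g * g) = ‖(2 : ℝ) • X + Y‖ := by
    unfold m1_s; rw [h1]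
  have h3 : m1_s g = ‖X‖ := rfl
  have h4 : ‖Y‖ ≤ 2 * ‖X‖ ^ 2 := by
    have hXe : ∀ i j, |X i j| ≤ ‖X‖ := fun i j => m1_entry_le g i j
    rw [pi_norm_le_iff_of_nonneg (by positivity)]
    intro i
    rw [pi_norm_le_iff_of_nonneg (by positivity)]
    intro j
    rw [Real.norm_eq_abs]
    have e1 : |X i 0 * X 0 j| ≤ ‖X‖ * ‖X‖ := by
      rw [abs_mul]; exact mul_le_mul (hXe _ _) (hXe _ _) (abs_nonneg _) (norm_nonneg _)
    have e2 : |X i 1 * X 1 j| ≤ ‖X‖ * ‖X‖ := by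
      rw [abs_mul]; exact mul_le_mul (hXe _ _) (hXe _ _) (abs_nonneg _) (norm_nonneg _)
    calc |Y i j| ≤ |X i 0 * X 0 j| + |X i 1 * X 1 j| := abs_add_le _ _
      _ ≤ 2 * ‖X‖ ^ 2 := by linarith [pow_two ‖X‖]
  rw [h2, h3]
  have h5 : ‖(2 : ℝ) • X‖ = 2 * ‖X‖ := by rw [norm_smul]; norm_num
  have h6 := abs_norm_sub_norm_le ((2 : ℝ) • X + Y) ((2 : ℝ) • X)
  rw [add_sub_cancel_left, h5] at h6
  exact h6.trans h4

theorem unif_disc {Γ : ℕ → Subgroup PSL(2, ℝ)} {Γ' : Subgroup PSL(2, ℝ)} (hΓ' : Fuchsian Γ')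
    (hconv : ChabautyTendsto Γ Γ') :
    ∃ ε : ℝ, Disc ε (Γ'.comap (QuotientGroup.mk' (Subgroup.center SL(2, ℝ)))) ∧
      ∀ᶠ n in atTop, Disc ε ((Γ n).comap (QuotientGroup.mk' (Subgroup.center SL(2, ℝ)))) := by
  -- discreteness of the limit
  have hdisc : ∃ δ : ℝ, 0 < δ ∧ ∀ g : SL(2, ℝ), (QuotientGroup.mk g : PSL(2, ℝ)) ∈ Γ' →
      m1_s g < δ → g = 1 := by
    have h1 : IsOpen ({1} : Set Γ') := by
      have : DiscreteTopology Γ' := hΓ'
      exact isOpen_discrete _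
    obtain ⟨U, hU, hU1⟩ := isOpen_induced_iff.1 h1
    have hVo : IsOpen ((QuotientGroup.mk : SL(2, ℝ) → PSL(2, ℝ)) ⁻¹' U) :=
      hU.preimage continuous_quot_mk
    have h1U : (1 : PSL(2, ℝ)) ∈ U := by
      have : (1 : Γ') ∈ (Subtype.val ⁻¹' U : Set Γ') := by rw [hU1]; rfl
      exact this
    have hV1 : (QuotientGroup.mk : SL(2, ℝ) → PSL(2, ℝ)) ⁻¹' U ∈ 𝓝 (1 : SL(2, ℝ)) :=
      hVo.mem_nhds h1U
    -- a small `s` ball lies in the preimage
    obtain ⟨δ, hδ, hδV⟩ : ∃ δ : ℝ, 0 < δ ∧ ∀ g : SL(2, ℝ), m1_s g < δ →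
        (QuotientGroup.mk g : PSL(2, ℝ)) ∈ U := by
      by_contra hcon
      push Not at hcon
      choose! g hg1 hg2 using fun n : ℕ => hcon (1 / ((n : ℝ) + 1)) (by positivity)
      have hlim : Tendsto g atTop (𝓝 1) := by
        have hval : Tendsto (fun n => ((g n : SL(2, ℝ)) : Matrix (Fin 2) (Fin 2) ℝ)) atTop
            (𝓝 ((1 : SL(2, ℝ)) : Matrix (Fin 2) (Fin 2) ℝ)) := by
          refine tendsto_pi_nhds.2 fun i => tendsto_pi_nhds.2 fun j => ?_
          rw [tendsto_iff_dist_tendsto_zero]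
          refine squeeze_zero (fun n => dist_nonneg) (fun n => ?_)
            tendsto_one_div_add_atTop_nhds_zero_nat
          rw [Real.dist_eq]
          exact (m1_entry_le (g n) i j).trans (hg1 n).le
        exact tendsto_subtype_rng.2 hval
      obtain ⟨n, hn⟩ := (hlim.eventually_mem hV1).exists
      exact hg2 n hn
    refine ⟨min δ 1, by positivity, fun g hg hs => ?_⟩
    have h2 : (QuotientGroup.mk g : PSL(2, ℝ)) ∈ U := hδV g (lt_of_lt_of_le hs (min_le_left _ _))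
    have h3 : (⟨QuotientGroup.mk g, hg⟩ : Γ') ∈ (Subtype.val ⁻¹' U : Set Γ') := h2
    rw [hU1] at h3
    have h4 : (QuotientGroup.mk g : PSL(2, ℝ)) = QuotientGroup.mk (1 : SL(2, ℝ)) :=
      congrArg Subtype.val h3
    rcases (mk_eq_mk_iff g 1).1 h4 with h5 | h5
    · exact h5.symm
    · exfalso
      have h6 : g = -1 := by rw [h5, neg_neg]
      have h7 := m1_entry_le g 0 0
      rw [h6] at h7 hs
      simp at h7
      have h8 : m1_s (-1 : SL(2, ℝ)) < 1 := lt_of_lt_of_le hs (min_le_right _ _)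
      have h9 : |(-1 - 1 : ℝ)| = 2 := by norm_num
      rw [h9] at h7
      linarith
  obtain ⟨δ, hδ, hδ'⟩ := hdisc
  set c : ℝ := min (1 / 8) (δ / 4) with hc
  have hc0 : 0 < c := by positivity
  have hc8 : c ≤ 1 / 8 := min_le_left _ _
  have hcδ : 3 * c < δ := by
    have : c ≤ δ / 4 := min_le_right _ _
    linarith
  set Sh : Set SL(2, ℝ) := {g | c ≤ m1_s g ∧ m1_s g ≤ 3 * c} with hSh
  have hShc : IsCompact Sh := by
    refine (isCompact_nrm_le 4).of_isClosed_subset ?_ ?_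
    · exact (isClosed_le continuous_const m1_continuous).inter
        (isClosed_le m1_continuous continuous_const)
    · intro g hg
      have hb : ∀ i j, |g i j| ≤ 2 := by
        intro i j
        have h1 := m1_entry_le g i j
        have h2 : |(1 : SL(2, ℝ)) i j| ≤ 1 := by
          fin_cases i <;> fin_cases j <;> simp
        have h3 := abs_sub_abs_le_abs_sub (g i j) ((1 : SL(2, ℝ)) i j)
        have := hg.2
        linarith
      have hsq : ∀ i j, (g i j) ^ 2 ≤ 4 := by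
        intro i j
        have := sq_le_sq' (neg_le_of_abs_le (hb i j)) (le_of_abs_le (hb i j))
        linarith
      change nrm g ≤ 4
      refine le_of_sq_le_sq' ?_ (by norm_num)
      rw [nrm_sq]
      linarith [hsq 0 0, hsq 0 1, hsq 1 0, hsq 1 1]
  have hKd : Disjoint ((QuotientGroup.mk : SL(2, ℝ) → PSL(2, ℝ)) '' Sh) (Γ' : Set PSL(2, ℝ)) := by
    rw [Set.disjoint_left]
    rintro _ ⟨g, hg, rfl⟩ hmem
    have h1 := hδ' g hmem (lt_of_le_of_lt hg.2 hcδ)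
    have h2 : m1_s (1 : SL(2, ℝ)) = 0 := by simp [m1_s]
    have h3 := hg.1
    rw [h1, h2] at h3
    linarith
  have hev := hconv.1 _ (hShc.image continuous_quot_mk) hKd
  refine ⟨c, ⟨hc0, fun g hg hsm => ?_⟩, ?_⟩
  · refine hδ' g hg ?_
    have := (m1_lt_iff g hc0).2 hsm
    linarith
  · filter_upwards [hev] with n hn
    refine ⟨hc0, fun g hg hsm => ?_⟩
    by_contra hg1
    have hgs : m1_s g < c := (m1_lt_iff g hc0).2 hsm
    have hgpos : 0 < m1_s g := by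
      refine lt_of_le_of_ne (m1_s_nonneg g) fun h => hg1 (m1_s_eq_zero h.symm)
    have hstep : ∀ h : SL(2, ℝ), (QuotientGroup.mk h : PSL(2, ℝ)) ∈ Γ n → m1_s h < c →
        m1_s (h * h) < c ∧ 3 / 2 * m1_s h ≤ m1_s (h * h) := by
      intro h hh hs
      have h1 := abs_le.1 (m1_sq h)
      have h0 := m1_s_nonneg h
      have h2 : 2 * m1_s h ^ 2 ≤ 1 / 4 * m1_s h := by nlinarith
      have h3 : m1_s (h * h) ≤ 3 * m1_s h := by linarith [h1.2]
      have h4 : 3 / 2 * m1_s h ≤ m1_s (h * h) := by linarith [h1.1]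
      refine ⟨?_, h4⟩
      by_contra hcon
      push Not at hcon
      have h5 : h * h ∈ Sh := ⟨hcon, by linarith⟩
      refine Set.disjoint_left.1 hn ⟨h * h, h5, rfl⟩ ?_
      exact mul_mem hh hh
    have hpow : ∀ k : ℕ, (QuotientGroup.mk (g ^ (2 ^ k)) : PSL(2, ℝ)) ∈ Γ n ∧
        m1_s (g ^ (2 ^ k)) < c ∧ (3 / 2 : ℝ) ^ k * m1_s g ≤ m1_s (g ^ (2 ^ k)) := by
      intro k
      induction k with
      | zero => simpa using ⟨hg, hgs⟩
      | succ k ih =>
        obtain ⟨h1, h2, h3⟩ := ih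
        have e : g ^ (2 ^ (k + 1)) = g ^ (2 ^ k) * g ^ (2 ^ k) := by
          rw [← pow_add]; congr 1; ring
        obtain ⟨h4, h5⟩ := hstep _ h1 h2
        rw [e]
        refine ⟨mul_mem h1 h1, h4, ?_⟩
        calc (3 / 2 : ℝ) ^ (k + 1) * m1_s g = 3 / 2 * ((3 / 2 : ℝ) ^ k * m1_s g) := by ring
          _ ≤ 3 / 2 * m1_s (g ^ (2 ^ k)) := by linarith
          _ ≤ _ := h5
    obtain ⟨k, hk⟩ := pow_unbounded_of_one_lt (c / m1_s g) (by norm_num : (1 : ℝ) < 3 / 2)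
    obtain ⟨-, h2, h3⟩ := hpow k
    rw [div_lt_iff₀ hgpos] at hk
    linarith

end

end Pool.Agent.Helper97.Fuchs
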