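import Pool.Agent.Helper97.Fuchs.Base2

/-!
# FU-M2: cocompactness is open
-/

namespace Pool.Agent.Helper97.Fuchs

open MeasureTheory Matrix UpperHalfPlane Filter Topology
open scoped MatrixGroups ENNReal BigOperators

noncomputable section

lemma m2_nhds_one {ε : ℝ} (hε : 0 < ε) :
    {k : SL(2, ℝ) | ∀ i j, |k i j - (1 : SL(2, ℝ)) i j| < ε} ∈ 𝓝 (1 : SL(2, ℝ)) := by
  have h : IsOpen {k : SL(2, ℝ) | ∀ i j, |k i j - (1 : SL(2, ℝ)) i j| < ε} := by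
    simp only [Set.ofPred_forall]
    refine isOpen_iInter_of_finite fun i => isOpen_iInter_of_finite fun j => ?_
    exact isOpen_lt (((continuous_entry i j).sub continuous_const).abs) continuous_const
  exact h.mem_nhds (by intro i j; simpa using hε)

lemma m2_finite_nrm_le {ε : ℝ} {Γ : Subgroup SL(2, ℝ)} (hd : Disc ε Γ) (R : ℝ) :
    {g : SL(2, ℝ) | g ∈ Γ ∧ nrm g ≤ R}.Finite := by
  by_contra hinf
  obtain ⟨x, -, hx⟩ := Set.Infinite.exists_accPt_of_subset_isCompact hinf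
    (isCompact_nrm_le R) (fun g hg => hg.2)
  have hc : Tendsto (fun p : SL(2, ℝ) × SL(2, ℝ) => p.1⁻¹ * p.2) (𝓝 (x, x)) (𝓝 (x⁻¹ * x)) :=
    (Continuous.mul (continuous_fst.inv) continuous_snd).tendsto _
  rw [inv_mul_cancel] at hc
  have hW := hc (m2_nhds_one hd.1)
  rw [nhds_prod_eq, Filter.mem_map, Filter.mem_prod_iff] at hW
  obtain ⟨V1, hV1, V2, hV2, hV⟩ := hW
  have hVV : V1 ∩ V2 ∈ 𝓝 x := inter_mem hV1 hV2
  rw [accPt_iff_nhds] at hx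
  obtain ⟨y1, hy1, hy1x⟩ := hx _ hVV
  have hV3 : (V1 ∩ V2) ∩ {y1}ᶜ ∈ 𝓝 x :=
    inter_mem hVV (isOpen_compl_singleton.mem_nhds (by simpa using hy1x.symm))
  obtain ⟨y2, hy2, -⟩ := hx _ hV3
  have h1 : (y1, y2) ∈ V1 ×ˢ V2 := ⟨hy1.1.1, hy2.1.1.2⟩
  have h2 := hV h1
  have h3 : y1⁻¹ * y2 = 1 := hd.2 _ (mul_mem (inv_mem hy1.2.1) hy2.2.1) h2
  have h4 : y2 = y1 := by
    rw [inv_mul_eq_one] at h3
    exact h3.symm
  exact hy2.1.2 (by simpa using h4)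

lemma m2_finite_dist_le {ε : ℝ} {Γ : Subgroup SL(2, ℝ)} (hd : Disc ε Γ) (R : ℝ) :
    {g : SL(2, ℝ) | g ∈ Γ ∧ dist I (g • I) ≤ R}.Finite := by
  refine (m2_finite_nrm_le hd (√(2 * Real.cosh R))).subset fun g hg => ⟨hg.1, ?_⟩
  refine Real.le_sqrt_of_sq_le ?_
  rw [nrm_sq_cosh]
  have h0 : 0 ≤ dist I (g • I) := dist_nonneg
  have h1 : Real.cosh (dist I (g • I)) ≤ Real.cosh R := by
    rw [Real.cosh_le_cosh, abs_of_nonneg h0, abs_of_nonneg (h0.trans hg.2)]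
    exact hg.2
  linarith

theorem cocompact_open {ε : ℝ} {Γ : Subgroup SL(2, ℝ)} (hd : Disc ε Γ)
    {Γn : ℕ → Subgroup SL(2, ℝ)}
    (hlim : ∀ g ∈ Γ, ∃ gn : ℕ → SL(2, ℝ), (∀ n, gn n ∈ Γn n) ∧ Tendsto gn atTop (𝓝 g))
    (hR : ∃ R : ℝ, ∀ z : ℍ, ∃ g ∈ Γ, dist z (g • I) ≤ R) :
    ∀ᶠ n in atTop, ∃ R : ℝ, ∀ z : ℍ, ∃ g ∈ Γn n, dist z (g • I) ≤ R := by
  obtain ⟨R, hR⟩ := hR
  have hR0 : 0 ≤ R := by
    obtain ⟨g, -, hg⟩ := hR I
    exact dist_nonneg.trans hg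
  set S : Set SL(2, ℝ) := {g | g ∈ Γ ∧ dist I (g • I) ≤ 2 * R + 1} with hS
  have hSf : S.Finite := m2_finite_dist_le hd _
  -- approximation of the elements of `S`
  have happ : ∀ g ∈ S, ∀ᶠ n in atTop, ∃ g' ∈ Γn n, dist (g • I) (g' • I : ℍ) < 1 / 4 := by
    intro g hg
    obtain ⟨gn, hgn, hlim'⟩ := hlim g hg.1
    have hcont : Tendsto (fun n => (gn n • I : ℍ)) atTop (𝓝 (g • I)) :=
      hlim'.smul_const I
    have := (Metric.tendsto_nhds.1 hcont) (1 / 4) (by norm_num)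
    filter_upwards [this] with n hn
    exact ⟨gn n, hgn n, by rwa [dist_comm]⟩
  have hall : ∀ᶠ n in atTop, ∀ g ∈ S, ∃ g' ∈ Γn n, dist (g • I) (g' • I : ℍ) < 1 / 4 :=
    (Filter.eventually_all_finite hSf).2 happ
  filter_upwards [hall] with n hn
  refine ⟨R + 1, ?_⟩
  set O : Set ℍ := {z | ∃ g ∈ Γn n, z = g • I} with hO
  have hIO : I ∈ O := ⟨1, one_mem _, by simp⟩
  set f : ℍ → ℝ := fun z => Metric.infDist z O with hf
  have hfc : Continuous f := Metric.continuous_infDist_pt O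
  have hgap : ∀ z, ¬ (R + 1 / 4 < f z ∧ f z < R + 1) := by
    rintro z ⟨h1, h2⟩
    obtain ⟨_, ⟨γ, hγ, rfl⟩, h3⟩ := (Metric.infDist_lt_iff ⟨I, hIO⟩).1 h2
    set y : ℍ := γ⁻¹ • z with hy
    have hyI : dist y I < R + 1 := by
      rw [hy, ← dist_smul γ, smul_inv_smul]
      exact h3
    obtain ⟨g, hg, hgd⟩ := hR y
    have hgS : g ∈ S := by
      refine ⟨hg, ?_⟩
      have := dist_triangle I y (g • I)
      rw [dist_comm I y] at this
      linarith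
    obtain ⟨g', hg', hgd'⟩ := hn g hgS
    have h4 : dist y (g' • I) < R + 1 / 4 := by
      have := dist_triangle y (g • I) (g' • I : ℍ)
      linarith
    have h5 : f z ≤ dist z ((γ * g') • I) :=
      Metric.infDist_le_dist_of_mem ⟨γ * g', mul_mem hγ hg', rfl⟩
    have h6 : dist z ((γ * g') • I) = dist y (g' • I) := by
      rw [hy, ← dist_smul γ (γ⁻¹ • z), smul_inv_smul, mul_smul]
    linarith
  intro z
  have hfz : f z < R + 1 := by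
    by_contra hcon
    push Not at hcon
    have h1 : f I = 0 := Metric.infDist_zero_of_mem hIO
    obtain ⟨w, hw⟩ := mem_range_of_exists_le_of_exists_ge hfc (c := R + 1 / 2)
      ⟨I, by rw [h1]; linarith⟩ ⟨z, by linarith⟩
    exact hgap w ⟨by rw [hw]; linarith, by rw [hw]; linarith⟩
  obtain ⟨_, ⟨g, hg, rfl⟩, h⟩ := (Metric.infDist_lt_iff ⟨I, hIO⟩).1 hfz
  exact ⟨g, hg, h.le⟩

end

end Pool.Agent.Helper97.Fuchs
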